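import Mathlib

/-!
# Coverings glued from trivial pieces, and their monodromy
-/

open Topology unitInterval

namespace Pool.Agent.Lib.MP_1da757_ag

noncomputable section

/-- Gluing data for a covering of `B` with fibre `F`. -/
structure Glue (B : Type*) [TopologicalSpace B] (F : Type*) (ι : Type*) where
  /-- the open sets over which the covering is trivial -/
  V : ι → Set B
  isOpen_V : ∀ i, IsOpen (V i)
  /-- a preferred chart at each point -/
  idx : B → ι
  mem_idx : ∀ b, b ∈ V (idx b)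
  /-- the transition functions -/
  g : ι → ι → B → Equiv.Perm F
  g_self : ∀ i b, b ∈ V i → g i i b = 1
  g_comp : ∀ i j l b, b ∈ V i → b ∈ V j → b ∈ V l → g j l b * g i j b = g i l b
  g_loc : ∀ i j b, b ∈ V i → b ∈ V j → ∀ᶠ b' in 𝓝 b, g i j b' = g i j b

namespace Glue

variable {B : Type*} [TopologicalSpace B] {F : Type*} [TopologicalSpace F] [DiscreteTopology F]
  {ι : Type*} (G : Glue B F ι)

/-- The associated fibre bundle. -/
def core : FiberBundleCore ι B F where
  baseSet := G.V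
  isOpen_baseSet := G.isOpen_V
  indexAt := G.idx
  mem_baseSet_at := G.mem_idx
  coordChange i j b v := G.g i j b v
  coordChange_self i b hb v := by rw [G.g_self i b hb]; rfl
  continuousOn_coordChange i j := by
    rintro ⟨b, v⟩ ⟨⟨hbi, hbj⟩, -⟩
    apply ContinuousAt.continuousWithinAt
    have h1 : ∀ᶠ p : B × F in 𝓝 (b, v), G.g i j p.1 p.2 = G.g i j b v := by
      rw [nhds_prod_eq]
      have h2 : ∀ᶠ v' : F in 𝓝 v, v' = v := by
        rw [nhds_discrete]
        exact Filter.eventually_pure.2 rfl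
      filter_upwards [(G.g_loc i j b hbi hbj).prod_mk h2] with p hp
      rw [hp.1, hp.2]
    exact (continuousAt_const (y := G.g i j b v)).congr (h1.mono fun p hp => hp.symm)
  coordChange_comp i j l b hb v := by
    rw [← G.g_comp i j l b hb.1.1 hb.1.2 hb.2]
    rfl

/-- The total space. -/
abbrev E := G.core.TotalSpace

/-- The projection. -/
abbrev proj : G.E → B := G.core.proj

lemma isCoveringMap : IsCoveringMap G.proj :=
  FiberBundle.isCoveringMap (F := F) (E := G.core.Fiber)

/-- The point over `b` with coordinate `v` in the chart `i`. -/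
def pt (i : ι) (b : B) (v : F) : G.proj ⁻¹' {b} :=
  ⟨⟨b, G.g i (G.idx b) b v⟩, rfl⟩

lemma pt_change (i j : ι) (b : B) (hi : b ∈ G.V i) (hj : b ∈ G.V j) (v : F) :
    G.pt i b v = G.pt j b (G.g i j b v) := by
  apply Subtype.ext
  change (⟨b, G.g i (G.idx b) b v⟩ : G.E) = ⟨b, G.g j (G.idx b) b (G.g i j b v)⟩
  rw [← G.g_comp i j (G.idx b) b hi hj (G.mem_idx b)]
  rfl

lemma pt_surj (i : ι) (b : B) (hi : b ∈ G.V i) (e : G.proj ⁻¹' {b}) : ∃ v, e = G.pt i b v := by
  obtain ⟨⟨b', v'⟩, he⟩ := e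
  have he' : b' = b := he
  subst he'
  refine ⟨G.g (G.idx b') i b' v', ?_⟩
  apply Subtype.ext
  change (⟨b', v'⟩ : G.E) = ⟨b', G.g i (G.idx b') b' (G.g (G.idx b') i b' v')⟩
  have := G.g_comp (G.idx b') i (G.idx b') b' (G.mem_idx b') hi (G.mem_idx b')
  rw [G.g_self _ _ (G.mem_idx b')] at this
  have h2 : G.g i (G.idx b') b' (G.g (G.idx b') i b' v') = v' :=
    congrArg (fun f : Equiv.Perm F => f v') this
  rw [h2]

lemma pt_inj (i : ι) (b : B) {v w : F} (h : G.pt i b v = G.pt i b w) : v = w := by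
  have h1 := congrArg Subtype.val h
  have h2 : (⟨b, G.g i (G.idx b) b v⟩ : G.E) = ⟨b, G.g i (G.idx b) b w⟩ := h1
  have h3 := (Bundle.TotalSpace.mk.injEq _ _ _ _).mp h2
  exact (G.g i (G.idx b) b).injective (eq_of_heq h3.2)

/-- Monodromy of a path contained in a chart. -/
lemma monodromy_pt (i : ι) {a b : B} (γ : Path a b) (hγ : ∀ s, γ s ∈ G.V i) (v : F) :
    G.isCoveringMap.monodromy (Path.Homotopic.Quotient.mk γ) (G.pt i a v) = G.pt i b v := by
  let Γ : C(I, G.E) :=
    ⟨fun s => (G.core.localTriv i).toOpenPartialHomeomorph.symm (γ s, v), by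
      refine (G.core.localTriv i).toOpenPartialHomeomorph.continuousOn_symm.comp_continuous
        (γ.continuous.prodMk continuous_const) (fun s => ?_)
      change _ ∈ (G.core.localTriv i).target
      rw [FiberBundleCore.mem_localTriv_target]
      exact hγ s⟩
  have hΓ : ∀ s, Γ s = ⟨γ s, G.g i (G.idx (γ s)) (γ s) v⟩ := fun s => rfl
  apply Subtype.ext
  have h0 : (γ : C(I, B)) 0 = G.proj (G.pt i a v).1 := γ.source
  have key : Γ = G.isCoveringMap.liftPath γ (G.pt i a v).1 h0 := by
    rw [IsCoveringMap.eq_liftPath_iff']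
    refine ⟨?_, ?_⟩
    · funext s
      rfl
    · rw [hΓ]
      change (⟨γ 0, G.g i (G.idx (γ 0)) (γ 0) v⟩ : G.E) = ⟨a, G.g i (G.idx a) a v⟩
      rw [γ.source]
  change G.isCoveringMap.liftPath γ (G.pt i a v).1 h0 1 = _
  rw [← key, hΓ]
  change (⟨γ 1, G.g i (G.idx (γ 1)) (γ 1) v⟩ : G.E) = ⟨b, G.g i (G.idx b) b v⟩
  rw [γ.target]

end Glue

end

end Pool.Agent.Lib.MP_1da757_ag
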