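import Mathlib
import Pool.Agent.Lib.MP_1da757_ag.Cover

/-!
# Monodromy of loops parametrised by the circle
-/

open Topology unitInterval Real

namespace Pool.Agent.Lib.MP_1da757_ag

noncomputable section

lemma circle_exp_pi : Circle.exp π = -1 := by
  apply Subtype.ext
  rw [Circle.coe_exp, Complex.exp_pi_mul_I]
  simp

/-- The upper half of the circle. -/
def circUp : Path (1 : Circle) (-1) where
  toFun s := Circle.exp (π * s)
  continuous_toFun := by fun_prop
  source' := by simp
  target' := by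
    simp only [Set.Icc.coe_one, mul_one]
    exact circle_exp_pi

/-- The lower half of the circle. -/
def circDown : Path (-1 : Circle) 1 where
  toFun s := Circle.exp (π * (1 + s))
  continuous_toFun := by fun_prop
  source' := by
    simp only [Set.Icc.coe_zero, add_zero, mul_one]
    exact circle_exp_pi
  target' := by
    simp only [Set.Icc.coe_one]
    have : π * (1 + 1) = 2 * π := by ring
    rw [this]
    exact Circle.exp_two_pi

/-- The standard loop in the circle. -/
def circLoop : Path (1 : Circle) 1 := circUp.trans circDown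

lemma circLoop_apply (s : I) : circLoop s = Circle.exp (2 * π * s) := by
  rw [circLoop, Path.trans_apply]
  split_ifs with h
  · change Circle.exp (π * (2 * s)) = _
    congr 1
    ring
  · change Circle.exp (π * (1 + (2 * s - 1))) = _
    congr 1
    ring

variable {E B : Type*} [TopologicalSpace E] [TopologicalSpace B] {p : E → B}

/-- The loop in `B` parametrised by a map from the circle. -/
def loopOf (φ : C(Circle, B)) : Path (φ 1) (φ 1) := circLoop.map φ.continuous

/-- The monodromy of the covering along the loop `φ` has order dividing `n`. -/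
def MonOrd (cov : IsCoveringMap p) (n : ℕ) (φ : C(Circle, B)) : Prop :=
  ∀ e, (cov.monodromy (Path.Homotopic.Quotient.mk (loopOf φ)))^[n] e = e

lemma monodromy_mk_trans (cov : IsCoveringMap p) {x y z : B} (γ : Path x y) (γ' : Path y z)
    (e : p ⁻¹' {x}) : cov.monodromy (Path.Homotopic.Quotient.mk (γ.trans γ')) e =
      cov.monodromy (Path.Homotopic.Quotient.mk γ')
        (cov.monodromy (Path.Homotopic.Quotient.mk γ) e) := by
  rw [Path.Homotopic.Quotient.mk_trans]
  exact cov.monodromy_trans_apply _ _ e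

/-- Free homotopy invariance. -/
lemma MonOrd.of_homotopic {cov : IsCoveringMap p} {n : ℕ} {φ ψ : C(Circle, B)}
    (h : φ.Homotopic ψ) (hψ : MonOrd cov n ψ) : MonOrd cov n φ := by
  obtain ⟨H⟩ := h
  have key : Path.Homotopic.Quotient.mk ((loopOf φ).trans (H.evalAt 1)) =
      Path.Homotopic.Quotient.mk ((H.evalAt 1).trans (loopOf ψ)) :=
    Path.Homotopic.Quotient.eq.2 (Path.Homotopic.map_trans_evalAt H circLoop)
  have hsemi : Function.Semiconj (cov.monodromy (Path.Homotopic.Quotient.mk (H.evalAt 1)))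
      (cov.monodromy (Path.Homotopic.Quotient.mk (loopOf φ)))
      (cov.monodromy (Path.Homotopic.Quotient.mk (loopOf ψ))) := by
    intro e
    rw [← monodromy_mk_trans, ← monodromy_mk_trans, key]
  intro e
  apply (cov.monodromy_bijective (Path.Homotopic.Quotient.mk (H.evalAt 1))).injective
  rw [(hsemi.iterate_right n).eq e]
  exact hψ _

/-- Conjugates of loops of finite order. -/
lemma monodromy_conj {cov : IsCoveringMap p} {n : ℕ} {x y : B} (δ : Path x y) (γ : Path y y)
    (hγ : ∀ e, (cov.monodromy (Path.Homotopic.Quotient.mk γ))^[n] e = e) (e : p ⁻¹' {x}) :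
    (cov.monodromy (Path.Homotopic.Quotient.mk ((δ.trans γ).trans δ.symm)))^[n] e = e := by
  have h1 : ∀ e, cov.monodromy (Path.Homotopic.Quotient.mk δ)
      (cov.monodromy (Path.Homotopic.Quotient.mk δ.symm) e) = e := by
    intro e
    rw [← monodromy_mk_trans]
    have : Path.Homotopic.Quotient.mk (δ.symm.trans δ) = Path.Homotopic.Quotient.refl y :=
      Path.Homotopic.Quotient.eq.2 ⟨(Path.Homotopy.reflSymmTrans δ).symm⟩
    rw [this, cov.monodromy_refl]
    rfl
  have hsemi : Function.Semiconj (cov.monodromy (Path.Homotopic.Quotient.mk δ))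
      (cov.monodromy (Path.Homotopic.Quotient.mk ((δ.trans γ).trans δ.symm)))
      (cov.monodromy (Path.Homotopic.Quotient.mk γ)) := by
    intro e
    rw [monodromy_mk_trans, monodromy_mk_trans, h1]
  apply (cov.monodromy_bijective (Path.Homotopic.Quotient.mk δ)).injective
  rw [(hsemi.iterate_right n).eq e]
  exact hγ _

/-- A criterion for the order of the monodromy of a loop whose two halves lie in charts. -/
lemma monOrd_of_halves {F ι : Type*} [TopologicalSpace F] [DiscreteTopology F] (G : Glue B F ι)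
    (i₁ i₂ : ι) (φ : C(Circle, B)) (h₁ : ∀ s : Circle, 0 ≤ (s : ℂ).im → φ s ∈ G.V i₁)
    (h₂ : ∀ s : Circle, (s : ℂ).im ≤ 0 → φ s ∈ G.V i₂) (n : ℕ)
    (hn : (G.g i₂ i₁ (φ 1) * G.g i₁ i₂ (φ (-1))) ^ n = 1) : MonOrd G.isCoveringMap n φ := by
  have hup : ∀ s : I, 0 ≤ ((circUp s : Circle) : ℂ).im := by
    intro s
    change 0 ≤ ((Circle.exp (π * s) : Circle) : ℂ).im
    rw [Circle.coe_exp, Complex.exp_ofReal_mul_I_im]
    apply Real.sin_nonneg_of_nonneg_of_le_pi
    · exact mul_nonneg pi_pos.le s.2.1
    · calc π * (s : ℝ) ≤ π * 1 := by gcongr; exact s.2.2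
        _ = π := mul_one _
  have hdown : ∀ s : I, ((circDown s : Circle) : ℂ).im ≤ 0 := by
    intro s
    change ((Circle.exp (π * (1 + s)) : Circle) : ℂ).im ≤ 0
    rw [Circle.coe_exp, Complex.exp_ofReal_mul_I_im]
    have : Real.sin (π * (1 + s)) = - Real.sin (π * s) := by
      rw [mul_add, mul_one, add_comm, Real.sin_add_pi]
    rw [this, neg_nonpos]
    apply Real.sin_nonneg_of_nonneg_of_le_pi
    · exact mul_nonneg pi_pos.le s.2.1
    · calc π * (s : ℝ) ≤ π * 1 := by gcongr; exact s.2.2
        _ = π := mul_one _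
  have him1 : ((1 : Circle) : ℂ).im = 0 := by simp
  have him2 : ((-1 : Circle) : ℂ).im = 0 := by simp
  have hstep : ∀ v, G.isCoveringMap.monodromy (Path.Homotopic.Quotient.mk (loopOf φ))
      (G.pt i₁ (φ 1) v) = G.pt i₁ (φ 1) ((G.g i₂ i₁ (φ 1) * G.g i₁ i₂ (φ (-1))) v) := by
    intro v
    have hl : loopOf φ = (circUp.map φ.continuous).trans (circDown.map φ.continuous) :=
      Path.map_trans _ _ _
    rw [hl, monodromy_mk_trans, G.monodromy_pt i₁ _ (fun s => h₁ _ (hup s)) v,
      G.pt_change i₁ i₂ _ (h₁ _ him2.ge) (h₂ _ him2.le),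
      G.monodromy_pt i₂ _ (fun s => h₂ _ (hdown s)),
      G.pt_change i₂ i₁ _ (h₂ _ him1.le) (h₁ _ him1.ge)]
    rfl
  intro e
  obtain ⟨v, rfl⟩ := G.pt_surj i₁ _ (h₁ 1 him1.ge) e
  have hiter : ∀ k : ℕ, (G.isCoveringMap.monodromy
      (Path.Homotopic.Quotient.mk (loopOf φ)))^[k] (G.pt i₁ (φ 1) v) =
      G.pt i₁ (φ 1) (((G.g i₂ i₁ (φ 1) * G.g i₁ i₂ (φ (-1))) ^ k) v) := by
    intro k
    induction k with
    | zero => rfl
    | succ k ih =>
      rw [Function.iterate_succ_apply', ih, hstep, pow_succ']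
      rfl
  rw [hiter, hn]
  rfl

end

end Pool.Agent.Lib.MP_1da757_ag
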