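import Mathlib
import Pool.Agent.Lib.MP_1da757_ag.Loop

/-!
# Coverings of punctured planes obtained by cutting along vertical rays
-/

open Topology unitInterval Real

namespace Pool.Agent.Lib.MP_1da757_ag

noncomputable section

/-- The plane without the real points of `T`. -/
def CutPlane (T : Set ℝ) : Type := {z : ℂ // z.im ≠ 0 ∨ z.re ∉ T}

instance (T : Set ℝ) : TopologicalSpace (CutPlane T) := instTopologicalSpaceSubtype

/-- The plane minus downward (`true`) or upward (`false`) rays. -/
def slit (T : Set ℝ) : Bool → Set (CutPlane T)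
  | true => {z | 0 < z.1.im ∨ z.1.re ∉ T}
  | false => {z | z.1.im < 0 ∨ z.1.re ∉ T}

/-- transition functions -/
def trans {F : Type*} (h : ℝ → Equiv.Perm F) : Bool → Bool → ℝ → Equiv.Perm F
  | true, false, r => h r
  | false, true, r => (h r)⁻¹
  | _, _, _ => 1

open Classical in
/-- The covering of the cut plane with transition `h` from the upper to the lower chart. -/
def cutGlue {F : Type*} (T : Set ℝ) (hT : IsClosed T) (h : ℝ → Equiv.Perm F)
    (hloc : ∀ r ∉ T, ∀ᶠ r' in 𝓝 r, h r' = h r) : Glue (CutPlane T) F Bool where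
  V := slit T
  isOpen_V i := by
    have h1 : IsOpen {z : CutPlane T | z.1.re ∉ T} :=
      hT.isOpen_compl.preimage (Complex.continuous_re.comp continuous_subtype_val)
    cases i
    · exact IsOpen.union (isOpen_Iio.preimage (Complex.continuous_im.comp continuous_subtype_val)) h1
    · exact IsOpen.union (isOpen_Ioi.preimage (Complex.continuous_im.comp continuous_subtype_val)) h1
  idx z := if z ∈ slit T true then true else false
  mem_idx z := by
    split_ifs with h
    · exact h
    · rcases z.2 with h1 | h1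
      · left
        rcases lt_or_gt_of_ne h1 with h2 | h2
        · exact h2
        · exact absurd (Or.inl h2) h
      · exact Or.inr h1
  g i j z := trans h i j z.1.re
  g_self i z _ := by cases i <;> rfl
  g_comp i j l z _ _ _ := by
    cases i <;> cases j <;> cases l <;> simp [trans]
  g_loc i j z hi hj := by
    have key : z.1.re ∉ T → ∀ᶠ z' : CutPlane T in 𝓝 z, h z'.1.re = h z.1.re := by
      intro hz
      have hc : ContinuousAt (fun z' : CutPlane T => z'.1.re) z :=
        (Complex.continuous_re.comp continuous_subtype_val).continuousAt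
      exact hc.eventually (hloc _ hz)
    cases i <;> cases j
    · exact Filter.Eventually.of_forall fun _ => rfl
    · have hz : z.1.re ∉ T := by
        rcases hi with h1 | h1
        · rcases hj with h2 | h2
          · exact absurd h1 (not_lt.2 h2.le)
          · exact h2
        · exact h1
      exact (key hz).mono fun z' hz' => congrArg (fun f : Equiv.Perm F => f⁻¹) hz'
    · have hz : z.1.re ∉ T := by
        rcases hi with h1 | h1
        · rcases hj with h2 | h2
          · exact absurd h1 (not_lt.2 h2.le)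
          · exact h2
        · exact h1
      exact (key hz).mono fun z' hz' => hz'
    · exact Filter.Eventually.of_forall fun _ => rfl

/-- Product of two gluing data with commuting transition functions. -/
def Glue.prod {B₁ B₂ F ι₁ ι₂ : Type*} [TopologicalSpace B₁] [TopologicalSpace B₂]
    (G₁ : Glue B₁ F ι₁) (G₂ : Glue B₂ F ι₂)
    (hc : ∀ i j a i' j' b, Commute (G₁.g i j a) (G₂.g i' j' b)) :
    Glue (B₁ × B₂) F (ι₁ × ι₂) where
  V i := G₁.V i.1 ×ˢ G₂.V i.2
  isOpen_V i := (G₁.isOpen_V i.1).prod (G₂.isOpen_V i.2)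
  idx b := (G₁.idx b.1, G₂.idx b.2)
  mem_idx b := ⟨G₁.mem_idx b.1, G₂.mem_idx b.2⟩
  g i j b := G₁.g i.1 j.1 b.1 * G₂.g i.2 j.2 b.2
  g_self i b hb := by rw [G₁.g_self _ _ hb.1, G₂.g_self _ _ hb.2, one_mul]
  g_comp i j l b hi hj hl := by
    rw [← G₁.g_comp i.1 j.1 l.1 b.1 hi.1 hj.1 hl.1, ← G₂.g_comp i.2 j.2 l.2 b.2 hi.2 hj.2 hl.2]
    have := (hc i.1 j.1 b.1 j.2 l.2 b.2).eq
    calc _ = G₁.g j.1 l.1 b.1 * (G₂.g j.2 l.2 b.2 * G₁.g i.1 j.1 b.1) * G₂.g i.2 j.2 b.2 := by
          group
      _ = _ := by rw [← this]; group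
  g_loc i j b hi hj := by
    rw [nhds_prod_eq]
    filter_upwards [(G₁.g_loc i.1 j.1 b.1 hi.1 hj.1).prod_mk (G₂.g_loc i.2 j.2 b.2 hi.2 hj.2)]
      with p hp
    rw [hp.1, hp.2]

end

end Pool.Agent.Lib.MP_1da757_ag
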