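import Mathlib

/-!
# Log Fano pairs `(ℙ², Δ)` and their orbifold fundamental groups
-/

open MvPolynomial
open scoped LinearAlgebra.Projectivization

namespace Pool.Agent.Lib.MP_1da757_ag

noncomputable section

/-- The classical topology of the complex projective plane: the quotient topology. -/
instance projTop : TopologicalSpace (ℙ ℂ (Fin 3 → ℂ)) :=
  TopologicalSpace.coinduced
    (fun v : {v : Fin 3 → ℂ // v ≠ 0} => Projectivization.mk ℂ v.1 v.2) inferInstance

/-- A pair `(ℙ², Δ)`, `Δ = ∑ b i D i`, where `D i` is the plane curve `F i = 0`: the `F i` are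
irreducible homogeneous polynomials of degree `deg i`, no two of them associated,
and `b i ≥ 0`. -/
structure PlanePair where
  /-- the number of components -/
  r : ℕ
  /-- the equations of the components -/
  F : Fin r → MvPolynomial (Fin 3) ℂ
  /-- the degrees -/
  deg : Fin r → ℕ
  /-- the coefficients -/
  b : Fin r → ℝ
  homogeneous : ∀ i, (F i).IsHomogeneous (deg i)
  irreducible : ∀ i, Irreducible (F i)
  distinct : ∀ i j, Associated (F i) (F j) → i = j
  nonneg : ∀ i, 0 ≤ b i

/-- The number `m` with `b^st = 1 - 1/m`, the value `0` standing for `m = ∞`. -/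
def isotropy (b : ℝ) : ℕ := sSup {m : ℕ | 0 < m ∧ 1 - 1 / (m : ℝ) ≤ b}

/-- The `2`-form `dx ∧ dy` vanishes to order at least `n` along the divisorial valuation `v`:
it is a sum of forms `g da ∧ db` with `v g ≥ n`, `v a ≥ 0`, `v b ≥ 0` (as `2`-forms of a function
field of transcendence degree two form a line, this may be tested after evaluation at
pairs of derivations). -/
def FormOrderGE {K : Type} [Field K] [Algebra ℂ K] (v : AddValuation K (WithTop ℤ)) (x y : K)
    (n : ℤ) : Prop :=
  ∀ d₁ d₂ : Derivation ℂ K K, d₁ x * d₂ y - d₂ x * d₁ y ∈ AddSubgroup.closure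
    {ω : K | ∃ g a b : K, (n : WithTop ℤ) ≤ v g ∧ 0 ≤ v a ∧ 0 ≤ v b ∧
      ω = g * (d₁ a * d₂ b - d₂ a * d₁ b)}

/-- The pair `(𝔸², ∑ b i {f i = 0})` is log canonical; here `φ` is the embedding of the
coordinate ring of `𝔸²` into its field of fractions `K`. For every divisorial valuation `v`
of `K` with centre on `𝔸²` one has `∑ b i v (f i) ≤ v (dx ∧ dy) + 1`. -/
def AffineLC {K : Type} [Field K] [Algebra ℂ K] (φ : MvPolynomial (Fin 2) ℂ →ₐ[ℂ] K) {r : ℕ}
    (b : Fin r → ℝ) (f : Fin r → MvPolynomial (Fin 2) ℂ) : Prop :=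
  ∀ v : AddValuation K (WithTop ℤ), Function.Surjective v → (∀ p, 0 ≤ v (φ p)) →
    (∃ a : K, ∀ Q : Polynomial ℂ, Q ≠ 0 → v (Polynomial.aeval a Q) = 0) →
    ∃ n : ℤ, FormOrderGE v (φ (X 0)) (φ (X 1)) n ∧
      ∀ k : Fin r → ℤ, (∀ i, v (φ (f i)) = k i) → ∑ i, b i * k i ≤ n + 1

namespace PlanePair

variable (P : PlanePair)

/-- `(ℙ², Δ)` is log canonical: it is so on each of the three standard affine charts. -/
def IsLogCanonical : Prop :=
  ∀ c : Fin 3, AffineLC (IsScalarTower.toAlgHom ℂ (MvPolynomial (Fin 2) ℂ)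
    (FractionRing (MvPolynomial (Fin 2) ℂ))) P.b
    (fun i => aeval (c.insertNth (1 : MvPolynomial (Fin 2) ℂ) X) (P.F i))

/-- `-(K + Δ)` is ample. -/
def IsFano : Prop := ∑ i, P.b i * P.deg i < 3

/-- The complement of the support of `Δ^st`. -/
def Compl : Type :=
  {q : ℙ ℂ (Fin 3 → ℂ) // ∀ i, isotropy (P.b i) ≠ 1 → eval q.rep (P.F i) ≠ 0}

instance complTop : TopologicalSpace P.Compl := instTopologicalSpaceSubtype

/-- `g` is a meridian of the component `i`: the class of `δ γ δ⁻¹`, where `γ` is the positively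
oriented boundary of a linear disc `{q + s w : |s| ≤ 1}` which crosses the component `i`
transversally at `q` and is otherwise disjoint from the support of `Δ^st`. -/
def IsMeridian (u : P.Compl) (i : Fin P.r) (g : FundamentalGroup P.Compl u) : Prop :=
  ∃ (q w : Fin 3 → ℂ) (x : P.Compl) (δ : Path u x) (γ : Path x x),
    q ≠ 0 ∧ eval q (P.F i) = 0 ∧ deriv (fun s : ℂ => eval (q + s • w) (P.F i)) 0 ≠ 0 ∧
    (∀ s : ℂ, ‖s‖ ≤ 1 → ∀ j, isotropy (P.b j) ≠ 1 →
      (j = i ∧ s = 0) ∨ eval (q + s • w) (P.F j) ≠ 0) ∧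
    (∀ θ : unitInterval, ∃ h : q + (Circle.exp (2 * Real.pi * θ) : ℂ) • w ≠ 0,
      (γ θ).1 = Projectivization.mk ℂ (q + (Circle.exp (2 * Real.pi * θ) : ℂ) • w) h) ∧
    g = FundamentalGroup.fromPath (Path.Homotopic.Quotient.mk ((δ.trans γ).trans δ.symm))

/-- The normal subgroup generated by the powers `γ_i ^ m_i` of the meridians. -/
def relations (u : P.Compl) : Subgroup (FundamentalGroup P.Compl u) :=
  Subgroup.normalClosure
    {g | ∃ i, isotropy (P.b i) ≠ 1 ∧ ∃ x, P.IsMeridian u i x ∧ g = x ^ isotropy (P.b i)}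

instance relations_normal (u : P.Compl) : (P.relations u).Normal :=
  Subgroup.normalClosure_normal

/-- The orbifold fundamental group. -/
def OrbifoldGroup (u : P.Compl) : Type := FundamentalGroup P.Compl u ⧸ P.relations u

instance orbifoldGroup_group (u : P.Compl) : Group (P.OrbifoldGroup u) :=
  QuotientGroup.Quotient.group (P.relations u)

end PlanePair

end

end Pool.Agent.Lib.MP_1da757_ag
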