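import Mathlib
import Pool.Agent.Lib.MP_1da757_ag.Mg.G001

/-!
# The orbifold fundamental groups have no abelian subgroups of small index
-/

open MvPolynomial Topology unitInterval
open scoped LinearAlgebra.Projectivization

namespace Pool.Agent.Lib.MP_1da757_ag

noncomputable section

variable {m : ℕ} (hm : 2 ≤ m) (u : (pair m).Compl)

/-- the monodromy representation -/
def rho : FundamentalGroup (pair m).Compl u →* Equiv.Perm ((stdGlue m).proj ⁻¹' {toBC hm u}) :=
  ((cov m).monodromyPerm (toBC hm u)).comp (FundamentalGroup.map (toBC hm) u)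

lemma rho_mk (γ : Path u u) (e : (stdGlue m).proj ⁻¹' {toBC hm u}) :
    rho hm u (FundamentalGroup.fromPath (Path.Homotopic.Quotient.mk γ)) e =
      (cov m).monodromy (Path.Homotopic.Quotient.mk (γ.map (toBC hm).continuous)) e := rfl

lemma rho_meridian (i : Fin 5) (g : FundamentalGroup (pair m).Compl u)
    (h : (pair m).IsMeridian u i g) : rho hm u g ^ ord m i = 1 := by
  obtain ⟨q, w, x, δ, γ, hq, hF, hd, hs, hγ, rfl⟩ := h
  have hs' : ∀ s : ℂ, ‖s‖ ≤ 1 → ∀ j : Fin 5,
      (j = i ∧ s = 0) ∨ eval (q + s • w) (lines j) ≠ 0 := fun s h1 j =>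
    hs s h1 j (isotropy_ne_one hm j)
  obtain ⟨φ, hφ, hφ'⟩ := monOrd_meridian hm i q w hF hd hs'
  have hc : ∀ θ : I, (γ.map (toBC hm).continuous) θ = φ (circLoop θ) := by
    intro θ
    obtain ⟨hne, hθ⟩ := hγ θ
    have h1 : (γ.map (toBC hm).continuous) θ = toB hm (γ θ) := rfl
    rw [h1, toB_eq hm (γ θ) _ hne hθ, circLoop_apply]
    apply Prod.ext
    · apply Subtype.ext
      exact (hφ' _).1.symm
    · apply Subtype.ext
      exact (hφ' _).2.symm
  ext1 e
  rw [← Equiv.Perm.iterate_eq_pow]
  have h2 : ⇑(rho hm u (FundamentalGroup.fromPath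
      (Path.Homotopic.Quotient.mk ((δ.trans γ).trans δ.symm)))) =
      (cov m).monodromy (Path.Homotopic.Quotient.mk
        (((δ.map (toBC hm).continuous).trans (γ.map (toBC hm).continuous)).trans
          (δ.map (toBC hm).continuous).symm)) := by
    funext e
    rw [rho_mk, Path.map_trans, Path.map_trans, Path.map_symm]
  rw [h2]
  exact monodromy_conj _ _ (order_of_monOrd _ φ hc hφ) e

/-- the induced representation of the orbifold fundamental group -/
def rhoQ : (pair m).OrbifoldGroup u →* Equiv.Perm ((stdGlue m).proj ⁻¹' {toBC hm u}) :=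
  QuotientGroup.lift ((pair m).relations u) (rho hm u) (by
    apply Subgroup.normalClosure_le_normal
    rintro g ⟨i, _, x, hx, rfl⟩
    change rho hm u (x ^ isotropy ((pair m).b i)) = 1
    have h : isotropy ((pair m).b i) = ord m i := isotropy_coef (by omega) i
    rw [map_pow, h]
    exact rho_meridian hm u i x hx)

/-- loops in the base lift to the complement -/
lemma exists_loop (ω : Path (toBC hm u) (toBC hm u)) :
    ∃ a : FundamentalGroup (pair m).Compl u, ∀ e : (stdGlue m).proj ⁻¹' {toBC hm u},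
      rho hm u a e = (cov m).monodromy (Path.Homotopic.Quotient.mk ω) e := by
  have h : u = ofBC (m := m) (toBC hm u) := (ofB_toB hm u).symm
  refine ⟨FundamentalGroup.fromPath (Path.Homotopic.Quotient.mk
    ((ω.map (ofBC (m := m)).continuous).cast h h)), fun e => ?_⟩
  rw [rho_mk]
  congr 2
  apply Path.ext
  funext θ
  exact toB_ofB hm (ω θ)

/-- the two elements -/
lemma exists_elements : ∃ (p : Fib m → (stdGlue m).proj ⁻¹' {toBC hm u})
    (a a' : FundamentalGroup (pair m).Compl u), Function.Injective p ∧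
      (∀ v, rho hm u a (p v) = p (tr v)) ∧ ∀ v, rho hm u a' (p v) = p (sh v) := by
  have δ : Path (toBC hm u) ((ptUp, bpt1) : Base) := PathConnectedSpace.somePath _ _
  obtain ⟨a, ha⟩ := exists_loop hm u ((δ.trans alpha).trans δ.symm)
  obtain ⟨a', ha'⟩ := exists_loop hm u ((δ.trans alpha').trans δ.symm)
  have h1 : ∀ e, (cov m).monodromy (Path.Homotopic.Quotient.mk δ)
      ((cov m).monodromy (Path.Homotopic.Quotient.mk δ.symm) e) = e := by
    intro e
    rw [← monodromy_mk_trans]
    have : Path.Homotopic.Quotient.mk (δ.symm.trans δ) =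
        Path.Homotopic.Quotient.refl ((ptUp, bpt1) : Base) :=
      Path.Homotopic.Quotient.eq.2 ⟨(Path.Homotopy.reflSymmTrans δ).symm⟩
    rw [this, (cov m).monodromy_refl]
    rfl
  refine ⟨fun v => (cov m).monodromy (Path.Homotopic.Quotient.mk δ.symm)
    ((stdGlue m).pt (true, true) (ptUp, bpt1) v), a, a', ?_, ?_, ?_⟩
  · intro v w hvw
    apply (stdGlue m).pt_inj (true, true) ((ptUp, bpt1) : Base)
    exact ((cov m).monodromy_bijective (Path.Homotopic.Quotient.mk δ.symm)).injective hvw
  · intro v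
    rw [ha, monodromy_mk_trans, monodromy_mk_trans, h1, monodromy_alpha]
  · intro v
    rw [ha', monodromy_mk_trans, monodromy_mk_trans, h1, monodromy_alpha']

lemma pow_apply {X Y : Type*} (p : X → Y) (f : Equiv.Perm Y) (g : Equiv.Perm X)
    (h : ∀ v, f (p v) = p (g v)) (n : ℕ) (v : X) : (f ^ n) (p v) = p ((g ^ n) v) := by
  induction n with
  | zero => rfl
  | succ n ih =>
    rw [pow_succ', Equiv.Perm.mul_apply, ih, h, pow_succ', Equiv.Perm.mul_apply]

include hm in
/-- Abelian subgroups of finite index have large index. -/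
theorem index_large (A : Subgroup ((pair m).OrbifoldGroup u))
    (hA : ∀ x ∈ A, ∀ y ∈ A, x * y = y * x) (h0 : A.index ≠ 0) : m ≤ 2 * A.index * A.index := by
  obtain ⟨p, a, a', hp, ha, ha'⟩ := exists_elements hm u
  let b : (pair m).OrbifoldGroup u := (QuotientGroup.mk a : _ ⧸ (pair m).relations u)
  let b' : (pair m).OrbifoldGroup u := (QuotientGroup.mk a' : _ ⧸ (pair m).relations u)
  obtain ⟨i, hi0, hi, hiA⟩ := Subgroup.exists_pow_mem_of_index_ne_zero h0 b
  obtain ⟨j, hj0, hj, hjA⟩ := Subgroup.exists_pow_mem_of_index_ne_zero h0 b'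
  have h1 := congrArg (rhoQ hm u) (hA _ hiA _ hjA)
  rw [map_mul, map_mul, map_pow, map_pow] at h1
  have e1 : rhoQ hm u b = rho hm u a := rfl
  have e2 : rhoQ hm u b' = rho hm u a' := rfl
  rw [e1, e2] at h1
  have hcomm : Commute (tr (m := m) ^ i) (sh ^ j) := by
    ext1 v
    apply hp
    have h2 := congrArg (fun f : Equiv.Perm _ => f (p v)) h1
    simp only [Equiv.Perm.mul_apply] at h2
    rw [pow_apply p _ _ ha', pow_apply p _ _ ha, pow_apply p _ _ ha, pow_apply p _ _ ha'] at h2
    exact h2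
  have hdvd := dvd_of_commute hcomm
  have hpos : 0 < 2 * i * j := by positivity
  calc m ≤ 2 * i * j := Nat.le_of_dvd hpos hdvd
    _ ≤ 2 * A.index * A.index := by gcongr

/-- The main theorem. -/
theorem main (c : ℕ) : ∃ P : PlanePair, P.IsLogCanonical ∧ P.IsFano ∧ Nonempty P.Compl ∧
    ∀ (u : P.Compl) (A : Subgroup (P.OrbifoldGroup u)),
      (∀ x ∈ A, ∀ y ∈ A, x * y = y * x) → A.index = 0 ∨ c < A.index := by
  have hm : 2 ≤ 2 * c * c + 2 := by omega
  refine ⟨pair (2 * c * c + 2), isLogCanonical _, isFano (by omega),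
    ⟨ofB (ptUp, bpt1)⟩, fun u A hA => ?_⟩
  by_cases h0 : A.index = 0
  · exact Or.inl h0
  · right
    by_contra hc
    push Not at hc
    have h1 := index_large hm u A hA h0
    have h2 : 2 * A.index * A.index ≤ 2 * c * c := by gcongr
    omega

end

end Pool.Agent.Lib.MP_1da757_ag
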